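import Mathlib
import Pool.Agent.Lib.MP_4aa2a9_ag.DQ.OffFinalB
import Pool.Agent.Lib.MP_4aa2a9_ag.DQ.OffNonvac

/-!
# MP_b4eb46_ag, Q1: coherence of the direct image of a localized DQ-module

`X` is a complex manifold of dimension `n`, `A` a DQ-algebroid on `X`, `A'` its localisation (`ħ`
inverted), `Y` a closed analytic subset of codimension `≥ d + 3`, `D` its complement and `M` a
coherent `A'`-module on `D` with an `A`-lattice `N` and with `Ext^k(M, A') = 0` for all `k ≠ d`.
The direct image of `M` to `X` exists, and every direct image `P` of `M` is coherent over `A'`.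
-/

open TopologicalSpace

open scoped Manifold ContDiff

universe u

namespace Pool.Agent.Results.MP_b4eb46_ag.LocalizedExtension

open Pool.Agent.DQOff

theorem result (n d : ℕ) (X : Type u) [TopologicalSpace X] [ChartedSpace (Fin n → ℂ) X]
    [IsManifold 𝓘(ℂ, Fin n → ℂ) ω X] (A : Algebroid X) (hA : IsDQ n A)
    (A' : Algebroid X) (o : A.Obj → A'.Obj)
    (φ : ∀ i j V, (A.Hom i j).sec V → (A'.Hom (o i) (o j)).sec V) (hL : IsLoc A A' o φ)
    (Y : Set X) (hY : IsAnalytic n Y) (hcodim : HasCodimGE n Y (d + 3))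
    (D : Opens X) (hD : (D : Set X) = Yᶜ) (M : Mod A' D) (N : Mod A D)
    (ι : ∀ i V, (N.sh i).sec V → (M.sh (o i)).sec V)
    (hM : M.Coherent) (hN : IsLattice o φ M N ι) (hext : ∀ k, k ≠ d → M.ExtZero k) :
    (∃ (P : Mod A' ⊤) (r : ∀ i V, (P.sh i).sec V → (M.sh i).sec (V ⊓ D)), IsPush M P r) ∧
    ∀ (P : Mod A' ⊤) (r : ∀ i V, (P.sh i).sec V → (M.sh i).sec (V ⊓ D)),
      IsPush M P r → P.Coherent :=
  statementB n d X A hA A' o φ hL Y hY hcodim D hD M N ι hM hN hext

end Pool.Agent.Results.MP_b4eb46_ag.LocalizedExtension
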